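import Mathlib
import Pool.Agent.R701.UG.Fld

/-!
# The inequality of Smyth and Schinzel for one embedding
-/

set_option autoImplicit false

open Polynomial ComplexConjugate

namespace Pool.Agent.U923.RS

open Pool.Agent.H338R2 Pool.Agent.R701.UG

theorem elem {M L : ℝ} (hM : 0 ≤ M) (hL : 0 ≤ L) :
    5 / 2 * (M * L * (M ^ 2 - L ^ 2)) ≤ M ^ 4 := by
  have h1 : 0 ≤ (M - 5 / 3 * L) ^ 2 * (2 * M + 5 / 3 * L) + 10 / 27 * L ^ 3 := by positivity
  have h2 : 0 ≤ M * ((M - 5 / 3 * L) ^ 2 * (2 * M + 5 / 3 * L) + 10 / 27 * L ^ 3) :=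
    mul_nonneg hM h1
  nlinarith [h2]

/-- the reciprocal polynomial by its coefficients -/
theorem pr_eq (R : Multiset ℂ) : pr R = ((pl R).map (starRingEnd ℂ)).reverse := by
  have h3 : (pl R).map (starRingEnd ℂ) =
      ((R.map (starRingEnd ℂ)).map (fun a => (X - C a : ℂ[X]))).prod := by
    rw [pl, Polynomial.map_multiset_prod, Multiset.map_map, Multiset.map_map]
    congr 1
    apply Multiset.map_congr rfl
    intro a _
    simp
  rw [h3, reverse_prod, Multiset.map_map]
  rfl

theorem pl_monic (R : Multiset ℂ) : (pl R).Monic := monic_multiset_prod_of_monic _ _ fun a _ => monic_X_sub_C a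

theorem pl_natDegree (R : Multiset ℂ) : (pl R).natDegree = Multiset.card R := by
  rw [pl, natDegree_multiset_prod_X_sub_C_eq_card]

theorem pr_coeff (R : Multiset ℂ) {i : ℕ} (hi : i ≤ Multiset.card R) :
    (pr R).coeff i = conj ((pl R).coeff (Multiset.card R - i)) := by
  have h1 : ((pl R).map (starRingEnd ℂ)).natDegree = Multiset.card R := by
    rw [natDegree_map, pl_natDegree]
  rw [pr_eq, coeff_reverse, h1, revAt_le hi, coeff_map]

/-- **one embedding** -/
theorem one_emb (R : Multiset ℂ) (h0 : ∀ a ∈ R, a ≠ 0) (k : ℕ) (hk : k ≤ Multiset.card R)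
    (hlt : ∀ i < k, (pl R).coeff i = (pl R).coeff 0 * conj ((pl R).coeff (Multiset.card R - i)))
    (hne : (pl R).coeff k ≠ (pl R).coeff 0 * conj ((pl R).coeff (Multiset.card R - k))) :
    5 / 2 * (‖(pl R).coeff 0‖ *
      ‖(pl R).coeff k - (pl R).coeff 0 * conj ((pl R).coeff (Multiset.card R - k))‖) ≤
        up R ^ 4 := by
  set w : ℂ[X] := pl R - C ((pl R).coeff 0) * pr R with hw
  have hwc : ∀ i ≤ Multiset.card R, w.coeff i =
      (pl R).coeff i - (pl R).coeff 0 * conj ((pl R).coeff (Multiset.card R - i)) := by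
    intro i hi
    rw [hw, coeff_sub, coeff_C_mul, pr_coeff R hi]
  have h1 := rel_ineq R h0 w _ hw rfl k (by rw [hwc k hk]; exact sub_ne_zero.2 hne)
    (fun i hi => by rw [hwc i (by omega)]; exact sub_eq_zero.2 (hlt i hi))
  rw [hwc k hk] at h1
  have hM : 0 ≤ up R := zero_le_one.trans (one_le_up R)
  have h2 := elem hM (lo_nonneg R)
  have h3 : 0 ≤ up R * lo R := mul_nonneg hM (lo_nonneg R)
  have h4 := mul_le_mul_of_nonneg_left h1 h3
  rw [norm_pl_zero]
  linarith

end Pool.Agent.U923.RS
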