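import Mathlib
import Pool.Agent.TH860.LP.Rel
import Pool.Agent.U923.RS.A

/-!
# The inequality of Smyth and Schinzel relative to a field which is not a CM field
-/

set_option autoImplicit false

open Polynomial Finset Module IntermediateField ComplexConjugate

namespace Pool.Agent.U923.RS

open Pool.Agent.H388SL Pool.Agent.R701.UG Pool.Agent.TH860.LP

/-- complex conjugation is given on the conjugates of `z` by one rational polynomial -/
def IsCM (z : ℂ) : Prop :=
  ∃ P : ℚ[X], ∀ w : ℂ, aeval w (minpoly ℚ z) = 0 → conj w = aeval w P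

theorem isCM_zero : IsCM 0 := by
  refine ⟨0, fun w hw => ?_⟩
  rw [minpoly.zero, aeval_X] at hw
  rw [hw]
  simp

/-- the polynomial with the zeros `z i` -/
noncomputable def pz {L : Type*} [Field L] {ι : Type} [Fintype ι] (z : ι → L) : L[X] :=
  ∏ i, (X - C (z i))

theorem pz_map {L M : Type*} [Field L] [Field M] {ι : Type} [Fintype ι] (z : ι → L)
    (f : L →+* M) : (pz z).map f = pz fun i => f (z i) := by
  rw [pz, pz, Polynomial.map_prod]
  simp

theorem pz_eq_pl {ι : Type} [Fintype ι] (z : ι → ℂ) :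
    pz z = pl ((Finset.univ : Finset ι).val.map z) := by
  rw [pz, pl, Multiset.map_map]
  rfl

/-- the inequality in a number field -/
theorem field_ineq {L : Type*} [Field L] [NumberField L] {ι : Type} [Fintype ι] (z : ι → L)
    (h0 : ∀ i, z i ≠ 0) (k : ℕ) (hk : k ≤ Fintype.card ι)
    (hint0 : IsIntegral ℤ ((pz z).coeff 0))
    (A : L) (hA : IsIntegral ℤ A) (hA0 : A ≠ 0)
    (hlt : ∀ σ : L →ₐ[ℚ] ℂ, ∀ i < k, σ ((pz z).coeff i) =
      σ ((pz z).coeff 0) * conj (σ ((pz z).coeff (Fintype.card ι - i))))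
    (hA' : ∀ σ : L →ₐ[ℚ] ℂ, ‖σ ((pz z).coeff k) -
      σ ((pz z).coeff 0) * conj (σ ((pz z).coeff (Fintype.card ι - k)))‖ = ‖σ A‖) :
    finrank ℚ L * Real.log (5 / 2) ≤ 4 * ∑ i, lam (z i) := by
  classical
  have ha0 : (pz z).coeff 0 ≠ 0 := by
    rw [pz, Polynomial.coeff_zero_prod]
    apply Finset.prod_ne_zero_iff.2
    intro i _
    simp [h0 i]
  have key : ∀ σ : L →ₐ[ℚ] ℂ, Real.log (5 / 2) + (Real.log ‖σ ((pz z).coeff 0)‖ + Real.log ‖σ A‖) ≤
      4 * ∑ i, Real.log (max 1 ‖σ (z i)‖) := by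
    intro σ
    set R : Multiset ℂ := (Finset.univ : Finset ι).val.map fun i => σ (z i) with hR
    have hcard : Multiset.card R = Fintype.card ι := by simp [hR, Finset.card_univ]
    have hpl : pl R = (pz z).map (σ : L →+* ℂ) := by
      rw [pz_map, pz_eq_pl]
      rfl
    have hc : ∀ i, (pl R).coeff i = σ ((pz z).coeff i) := by
      intro i
      rw [hpl, coeff_map]
      rfl
    have hσA : 0 < ‖σ A‖ := norm_pos_iff.2 ((map_ne_zero_iff σ σ.toRingHom.injective).2 hA0)
    have hσ0 : 0 < ‖σ ((pz z).coeff 0)‖ :=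
      norm_pos_iff.2 ((map_ne_zero_iff σ σ.toRingHom.injective).2 ha0)
    have h1 := one_emb R (fun a ha => by
        obtain ⟨i, _, rfl⟩ := Multiset.mem_map.1 ha
        exact (map_ne_zero_iff σ σ.toRingHom.injective).2 (h0 i)) k (by rw [hcard]; exact hk)
      (fun i hi => by
        rw [hc, hc, hc, hcard]
        exact hlt σ i hi)
      (fun h => by
        rw [hc, hc, hc, hcard] at h
        have h2 := hA' σ
        rw [h, sub_self, norm_zero] at h2
        exact hσA.ne h2)
    rw [hc, hc, hc, hcard, hA' σ] at h1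
    have hup : up R = ∏ i, max 1 ‖σ (z i)‖ := by
      rw [up, hR, Multiset.map_map]
      rfl
    have hmax : ∀ i, (0 : ℝ) < max 1 ‖σ (z i)‖ := fun i => lt_of_lt_of_le one_pos (le_max_left _ _)
    have h2 := Real.log_le_log (by positivity) h1
    rw [Real.log_mul (by norm_num) (mul_pos hσ0 hσA).ne', Real.log_mul hσ0.ne' hσA.ne',
      Real.log_pow, hup, Real.log_prod (fun i _ => (hmax i).ne')] at h2
    exact_mod_cast h2
  have hsum := Finset.sum_le_sum fun (σ : L →ₐ[ℚ] ℂ) (_ : σ ∈ Finset.univ) => key σ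
  rw [Finset.sum_add_distrib, Finset.sum_add_distrib, Finset.sum_const, Finset.card_univ,
    AlgHom.card, nsmul_eq_mul, ← Finset.mul_sum, Finset.sum_comm] at hsum
  have hpos : ∀ y : L, IsIntegral ℤ y → y ≠ 0 → 0 ≤ ∑ σ : L →ₐ[ℚ] ℂ, Real.log ‖σ y‖ := by
    intro y hy hy0
    have h1 := one_le_prod_norm hy hy0
    rw [← Real.log_prod (fun σ _ => norm_ne_zero_iff.2
      ((map_ne_zero_iff σ σ.toRingHom.injective).2 hy0))]
    exact Real.log_nonneg h1
  have h1 := hpos _ hint0 ha0
  have h2 := hpos _ hA hA0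
  have h3 : ∑ i, ∑ σ : L →ₐ[ℚ] ℂ, Real.log (max 1 ‖σ (z i)‖) = ∑ i, lam (z i) := rfl
  rw [h3] at hsum
  linarith

/-- the coefficients of the minimal polynomial over `F`, as complex numbers -/
noncomputable def co (F : IntermediateField ℚ ℂ) (α : ℂ) (i : ℕ) : ℂ := ((minpoly F α).coeff i : F)

/-- the minimal polynomial departs from reciprocity before its coefficients leave the CM numbers -/
def Departs (F : IntermediateField ℚ ℂ) (α : ℂ) : Prop :=
  ∃ k : ℕ, 0 < k ∧ k ≤ (minpoly F α).natDegree ∧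
    (∀ i, 0 < i → i < k → IsCM (co F α ((minpoly F α).natDegree - i)) ∧
      co F α i = co F α 0 * conj (co F α ((minpoly F α).natDegree - i))) ∧
    ((IsCM (co F α ((minpoly F α).natDegree - k)) ∧
      co F α k ≠ co F α 0 * conj (co F α ((minpoly F α).natDegree - k))) ∨
      (co F α k = 0 ∧ co F α ((minpoly F α).natDegree - k) ≠ 0))

theorem main (F : IntermediateField ℚ ℂ) {α : ℂ} (hα : IsIntegral ℤ α) (hα0 : α ≠ 0)
    (h : Departs F α) : Real.log (5 / 2) / 4 / (minpoly F α).natDegree ≤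
      Real.log ((minpoly ℤ α).map (Int.castRingHom ℂ)).mahlerMeasure /
        (minpoly ℤ α).natDegree := by
  classical
  obtain ⟨k, hk0, hkd, hlt, hcase⟩ := h
  set g := minpoly ℤ α with hg
  have hαF : IsIntegral F α := hα.tower_top
  set f := minpoly F α with hf
  have hfm : f.Monic := minpoly.monic hαF
  set fc : ℂ[X] := f.map (algebraMap F ℂ) with hfc
  have hfcm : fc.Monic := hfm.map _
  have hfirr : Irreducible f := minpoly.irreducible hαF
  have hnd : fc.roots.Nodup := nodup_roots (hfirr.separable).map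
  have hfg : f ∣ g.map (algebraMap ℤ F) := by
    apply minpoly.dvd
    rw [aeval_map_algebraMap]
    exact minpoly.aeval ℤ α
  have hgm : g.Monic := minpoly.monic hα
  have hfi : ∀ i, IsIntegral ℤ (f.coeff i) := fun i =>
    Polynomial.isIntegral_coeff_of_dvd g f hgm hfm hfg i
  have hco : ∀ i, co F α i = fc.coeff i := by
    intro i
    rw [hfc, coeff_map]
    rfl
  have hcoi : ∀ i, IsIntegral ℤ (co F α i) := fun i => (hfi i).map (algebraMap F ℂ).toIntAlgHom
  -- the roots
  have hroot : ∀ z ∈ fc.roots, aeval z g = 0 := by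
    intro z hz
    have h2 : eval z fc = 0 := (Polynomial.mem_roots'.1 hz).2
    obtain ⟨B, hB⟩ := hfg
    have h3 : aeval z (g.map (algebraMap ℤ F)) = 0 := by
      rw [hB, map_mul]
      have h4 : aeval z f = 0 := by
        rw [aeval_def, ← eval_map]
        exact h2
      rw [h4, zero_mul]
    rwa [aeval_map_algebraMap] at h3
  set L := IntermediateField.adjoin ℚ (g.rootSet ℂ) with hL
  have hint : ∀ z ∈ g.rootSet ℂ, IsIntegral ℤ z := fun z hz =>
    ⟨g, hgm, by rw [← Polynomial.aeval_def]; exact (mem_rootSet.mp hz).2⟩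
  have : Finite (g.rootSet ℂ) := (rootSet_finite g ℂ).to_subtype
  have hfin : FiniteDimensional ℚ L := IntermediateField.finiteDimensional_adjoin
    fun z hz => (hint z hz).tower_top
  have : NumberField L := { to_charZero := inferInstance, to_finiteDimensional := hfin }
  let ι := {x // x ∈ fc.roots.toFinset}
  have hzR : ∀ i : ι, (i : ℂ) ∈ g.rootSet ℂ := fun i =>
    mem_rootSet.mpr ⟨hgm.ne_zero, hroot _ (Multiset.mem_toFinset.1 i.2)⟩
  let z' : ι → L := fun i => ⟨i, IntermediateField.subset_adjoin ℚ _ (hzR i)⟩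
  have hz'z : ∀ i, algebraMap L ℂ (z' i) = (i : ℂ) := fun i => rfl
  have hz'int : ∀ i, IsIntegral ℤ (z' i) := by
    intro i
    have h1 := hint _ (hzR i)
    rw [← hz'z] at h1
    exact (isIntegral_algebraMap_iff (algebraMap L ℂ).injective).mp h1
  have hz'0 : ∀ i, z' i ≠ 0 := by
    intro i hi
    have h1 : (i : ℂ) = 0 := by rw [← hz'z, hi, map_zero]
    have h2 := (Polynomial.mem_roots'.1 (Multiset.mem_toFinset.1 i.2)).2
    rw [h1, IsRoot.def, ← Polynomial.coeff_zero_eq_eval_zero, hfc, coeff_map] at h2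
    exact minpoly.coeff_zero_ne_zero hαF hα0 ((map_eq_zero_iff _ (algebraMap F ℂ).injective).1 h2)
  have hmin : ∀ i, minpoly ℤ (z' i) = g := by
    intro i
    have h1 : minpoly ℤ (i : ℂ) = minpoly ℤ (z' i) := by
      rw [← hz'z]
      exact minpoly.algebraMap_eq (algebraMap L ℂ).injective (z' i)
    rw [← h1]
    have h2 := minpoly.isIntegrallyClosed_dvd (hint _ (hzR i))
      (hroot _ (Multiset.mem_toFinset.1 i.2))
    have h3 : Associated (minpoly ℤ (i : ℂ)) g :=
      (minpoly.irreducible (hint _ (hzR i))).associated_of_dvd (minpoly.irreducible hα) h2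
    exact eq_of_monic_of_associated (minpoly.monic (hint _ (hzR i))) hgm h3
  let φ : L →ₐ[ℚ] ℂ := L.val
  have hφinj : Function.Injective φ := φ.toRingHom.injective
  have hpz : (pz z').map (φ : L →+* ℂ) = fc := by
    rw [pz_map, pz]
    have h1 : (∏ i : ι, (X - C ((φ : L →+* ℂ) (z' i)))) = ∏ x ∈ fc.roots.toFinset, (X - C x) :=
      Finset.prod_coe_sort fc.roots.toFinset fun x : ℂ => (X - C x : ℂ[X])
    rw [h1, Finset.prod_eq_multiset_prod, Multiset.toFinset_val, hnd.dedup]
    exact ((IsAlgClosed.splits fc).eq_prod_roots_of_monic hfcm).symm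
  have hcoφ : ∀ i, φ ((pz z').coeff i) = co F α i := by
    intro i
    have h1 : ((pz z').map (φ : L →+* ℂ)).coeff i = fc.coeff i := by rw [hpz]
    rw [coeff_map] at h1
    rw [hco]
    exact h1
  have hcard : Fintype.card ι = f.natDegree := by
    rw [Fintype.card_coe, Multiset.toFinset_card_of_nodup hnd,
      splits_iff_card_roots.1 (IsAlgClosed.splits fc), hfc, natDegree_map]
  have hai : ∀ i, IsIntegral ℤ ((pz z').coeff i) := by
    intro i
    have h1 := hcoi i
    rw [← hcoφ] at h1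
    exact (isIntegral_algHom_iff (φ.restrictScalars ℤ) hφinj).mp h1
  have hcm : ∀ y : L, IsCM (φ y) → ∃ y' : L, ∀ σ : L →ₐ[ℚ] ℂ, conj (σ y) = σ y' := by
    rintro y ⟨P, hP⟩
    refine ⟨aeval y P, fun σ => ?_⟩
    have h1 : minpoly ℚ (φ y) = minpoly ℚ y := minpoly.algHom_eq φ hφinj y
    rw [hP (σ y), aeval_algHom_apply]
    rw [h1, aeval_algHom_apply, minpoly.aeval, map_zero]
  have hlt' : ∀ σ : L →ₐ[ℚ] ℂ, ∀ i < k, σ ((pz z').coeff i) =
      σ ((pz z').coeff 0) * conj (σ ((pz z').coeff (Fintype.card ι - i))) := by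
    intro σ i hi
    rw [hcard]
    rcases Nat.eq_zero_or_pos i with rfl | hi0
    · have h1 : (pz z').coeff (f.natDegree - 0) = 1 := by
        apply hφinj
        rw [hcoφ, hco, Nat.sub_zero, map_one, hfc, coeff_map]
        have : f.coeff f.natDegree = 1 := hfm.coeff_natDegree
        rw [this, map_one]
      rw [h1, map_one, map_one, mul_one]
    · obtain ⟨h1, h2⟩ := hlt i hi0 hi
      rw [← hcoφ] at h1
      obtain ⟨y', hy'⟩ := hcm _ h1
      have h3 : (pz z').coeff i = (pz z').coeff 0 * y' := by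
        apply hφinj
        rw [map_mul, hcoφ, hcoφ, ← hy', hcoφ]
        exact h2
      rw [hy', h3, map_mul]
  have hex : ∃ A : L, IsIntegral ℤ A ∧ A ≠ 0 ∧ ∀ σ : L →ₐ[ℚ] ℂ, ‖σ ((pz z').coeff k) -
      σ ((pz z').coeff 0) * conj (σ ((pz z').coeff (Fintype.card ι - k)))‖ = ‖σ A‖ := by
    rw [hcard]
    rcases hcase with ⟨h1, h2⟩ | ⟨h1, h2⟩
    · rw [← hcoφ] at h1
      obtain ⟨y', hy'⟩ := hcm _ h1
      refine ⟨(pz z').coeff k - (pz z').coeff 0 * y', ?_, ?_, fun σ => ?_⟩
      · have h3 : IsIntegral ℤ (φ y') := by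
          rw [← hy', hcoφ]
          exact (hcoi _).map (starRingEnd ℂ).toIntAlgHom
        have h4 : IsIntegral ℤ y' := (isIntegral_algHom_iff (φ.restrictScalars ℤ) hφinj).mp h3
        exact (hai k).sub ((hai 0).mul h4)
      · intro h3
        apply h2
        have h4 : φ ((pz z').coeff k) = φ ((pz z').coeff 0) * φ y' := by
          rw [← map_mul, sub_eq_zero.1 h3]
        rw [hcoφ, hcoφ, ← hy', hcoφ] at h4
        exact h4
      · rw [hy', map_sub, map_mul]
    · refine ⟨(pz z').coeff 0 * (pz z').coeff (f.natDegree - k), (hai _).mul (hai _), ?_,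
        fun σ => ?_⟩
      · intro h3
        have h4 := congrArg φ h3
        rw [map_mul, map_zero, hcoφ, hcoφ] at h4
        rcases mul_eq_zero.1 h4 with h5 | h5
        · rw [hco, hfc, coeff_map] at h5
          exact minpoly.coeff_zero_ne_zero hαF hα0
            ((map_eq_zero_iff _ (algebraMap F ℂ).injective).1 h5)
        · exact h2 h5
      · have h3 : (pz z').coeff k = 0 := by
          apply hφinj
          rw [hcoφ, map_zero]
          exact h1
        rw [h3, map_zero, zero_sub, norm_neg, norm_mul, map_mul, norm_mul, RCLike.norm_conj]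
  obtain ⟨A, hA1, hA2, hA3⟩ := hex
  have hmain := field_ineq z' hz'0 k (by rw [hcard]; exact hkd) (hai 0) A hA1 hA2 hlt' hA3
  have hlam : ∀ i, lam (z' i) = finrank ℚ L *
      (Real.log (g.map (Int.castRingHom ℂ)).mahlerMeasure / g.natDegree) := by
    intro i
    rw [lam_root (hz'int i), hmin]
  simp_rw [hlam] at hmain
  rw [Finset.sum_const, Finset.card_univ, nsmul_eq_mul, hcard] at hmain
  have hfr : (0 : ℝ) < finrank ℚ L := by exact_mod_cast finrank_pos (R := ℚ) (M := L)
  have hd : (0 : ℝ) < f.natDegree := by exact_mod_cast minpoly.natDegree_pos hαF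
  set H := Real.log (g.map (Int.castRingHom ℂ)).mahlerMeasure / g.natDegree with hH
  have h2 : (finrank ℚ L : ℝ) * Real.log (5 / 2) ≤ finrank ℚ L * (4 * (f.natDegree * H)) := by
    refine hmain.trans (le_of_eq ?_)
    ring
  have h3 := le_of_mul_le_mul_left h2 hfr
  rw [div_div, div_le_iff₀ (by positivity)]
  linarith

end Pool.Agent.U923.RS
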